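import Pool.Agent.W973.IP.Defs

/-! Project IP: the maximum of the minimum is attained at a Fritz John point. -/

set_option autoImplicit false

namespace Pool.Agent.W699.IP

open Pool.Agent.W973.IP MvPolynomial

/-- coercive continuous functions attain their minimum -/
theorem attain {n : ℕ} (h : Vec n → ℝ) (hc : Continuous h) (B : ℝ)
    (hB : ∀ w, h w ≤ h 0 → ‖w‖ ≤ B) : ∃ w₀, ∀ w, h w₀ ≤ h w := by
  refine hc.exists_forall_le' 0 ?_
  have h5 := (tendsto_norm_cocompact_atTop (E := Vec n)).eventually_gt_atTop B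
  filter_upwards [h5] with w hw
  by_contra hlt
  push Not at hlt
  have h6 := hB w hlt.le
  linarith

/-- the maximum of the minimum is attained -/
theorem maxmin {n : ℕ} (g : Vec n → Vec n → ℝ)
    (hg : Continuous (fun p : Vec n × Vec n => g p.1 p.2)) (c U : ℝ)
    (hmin : ∀ u, ∃ w₀, ∀ w, g u w₀ ≤ g u w) (hU : ∀ u, U ≤ ‖u‖ → g u 0 < c) (u₁ : Vec n)
    (hu₁ : ∀ w, c < g u₁ w) :
    ∃ (v : ℝ) (um : Vec n), c < v ∧ (∀ w, v ≤ g um w) ∧ ∀ u, ∃ w, g u w ≤ v := by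
  set A : Set (ℝ × Vec n) := {p | c ≤ p.1 ∧ ∀ w, p.1 ≤ g p.2 w} with hA
  have hAc : IsClosed A := by
    rw [hA]
    have : {p : ℝ × Vec n | c ≤ p.1 ∧ ∀ w, p.1 ≤ g p.2 w} =
        {p : ℝ × Vec n | c ≤ p.1} ∩ ⋂ w : Vec n, {p : ℝ × Vec n | p.1 ≤ g p.2 w} := by
      ext p; simp
    rw [this]
    refine (isClosed_le continuous_const continuous_fst).inter (isClosed_iInter fun w => ?_)
    exact isClosed_le continuous_fst
      (hg.comp (by fun_prop : Continuous fun p : ℝ × Vec n => (p.2, w)))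
  have hAn : ∀ p ∈ A, ‖p.2‖ ≤ U := by
    intro p hp
    by_contra hlt
    push Not at hlt
    have h5 := hU p.2 hlt.le
    have h6 := hp.1.trans (hp.2 0)
    linarith
  have hg0 : Continuous (fun u : Vec n => g u 0) :=
    hg.comp (by fun_prop : Continuous fun u : Vec n => (u, (0 : Vec n)))
  obtain ⟨M, hM⟩ := ((isCompact_closedBall (0 : Vec n) U).bddAbove_image hg0.continuousOn)
  have hAM : ∀ p ∈ A, p.1 ≤ M := by
    intro p hp
    refine (hp.2 0).trans (hM ⟨p.2, ?_, rfl⟩)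
    rw [mem_closedBall_zero_iff]
    exact hAn p hp
  have hAk : IsCompact A := by
    refine IsCompact.of_isClosed_subset ((isCompact_Icc (a := c) (b := M)).prod
      (isCompact_closedBall (0 : Vec n) U)) hAc ?_
    intro p hp
    refine ⟨⟨hp.1, hAM p hp⟩, ?_⟩
    rw [mem_closedBall_zero_iff]
    exact hAn p hp
  obtain ⟨w₁, hw₁⟩ := hmin u₁
  have hmem : (g u₁ w₁, u₁) ∈ A := ⟨(hu₁ w₁).le, hw₁⟩
  obtain ⟨⟨v, um⟩, hvA, hvmax⟩ := hAk.exists_isMaxOn ⟨_, hmem⟩ continuous_fst.continuousOn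
  have hmax : ∀ p ∈ A, p.1 ≤ v := fun p hp => hvmax hp
  have hcv : c < v := (hu₁ w₁).trans_le (hmax _ hmem)
  refine ⟨v, um, hcv, hvA.2, fun u => ?_⟩
  obtain ⟨w₀, hw₀⟩ := hmin u
  refine ⟨w₀, ?_⟩
  by_contra hlt
  push Not at hlt
  have := hmax (g u w₀, u) ⟨(hcv.trans hlt).le, hw₀⟩
  simp only at this
  linarith

/-- abstract form -/
theorem absT (h1 : S_FJE) {n : ℕ} (g : Vec n → Vec n → ℝ) (gU gW : Fin n → Vec n → Vec n → ℝ)
    (hg : Continuous (fun p : Vec n × Vec n => g p.1 p.2))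
    (hgU : ∀ l, Continuous (fun p : Vec n × Vec n => gU l p.1 p.2))
    (hdu : ∀ (u w d : Vec n) (t : ℝ),
      HasDerivAt (fun t : ℝ => g (u + t • d) w) (∑ l, d l * gU l (u + t • d) w) t)
    (hdw : ∀ (u w : Vec n) (j : Fin n),
      HasDerivAt (fun t : ℝ => g u (w + t • (Pi.single j 1 : Vec n))) (gW j u w) 0) (c U : ℝ)
    (hco : ∀ K : ℝ, c ≤ K → ∃ B : ℝ, ∀ u w : Vec n, ‖u‖ ≤ K → g u w ≤ K → ‖w‖ ≤ B)
    (hU : ∀ u, U ≤ ‖u‖ → g u 0 < c) (u₁ : Vec n) (hu₁ : ∀ w, c < g u₁ w) :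
    ∃ r ≤ n, ∃ (u : Vec n) (w : Fin (r + 1) → Vec n) (lam : Fin (r + 1) → ℝ) (v : ℝ),
      ((∀ i, 0 < lam i) ∧ ∑ i, lam i = 1 ∧ Function.Injective w ∧ (∀ i, g u (w i) = v) ∧
      (∀ i j, gW j u (w i) = 0) ∧ ∀ l, ∑ i, lam i * gU l u (w i) = 0) ∧
      ∀ w' : Vec n, c < g u w' := by
  have hmin : ∀ u : Vec n, ∃ w₀ : Vec n, ∀ w, g u w₀ ≤ g u w := by
    intro u
    obtain ⟨B, hB⟩ := hco (max (max c ‖u‖) (g u 0)) ((le_max_left _ _).trans (le_max_left _ _))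
    refine attain (g u) (hg.comp (by fun_prop : Continuous fun w : Vec n => (u, w))) B
      fun w hw => hB u w ((le_max_right _ _).trans (le_max_left _ _)) (hw.trans (le_max_right _ _))
  obtain ⟨v, um, hcv, hvle, hex⟩ := maxmin g hg c U hmin hU u₁ hu₁
  obtain ⟨B, hB⟩ := hco (max v (‖um‖ + 1)) (hcv.le.trans (le_max_left _ _))
  have hB' : ∀ u w : Vec n, ‖u - um‖ ≤ 1 → g u w ≤ v → ‖w‖ ≤ B := by
    intro u w hu hw
    refine hB u w ?_ (hw.trans (le_max_left _ _))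
    refine le_trans ?_ (le_max_right _ _)
    have := norm_sub_norm_le u um
    linarith
  obtain ⟨r, hr, w, lam, q⟩ := h1 n g gU gW um v B hg hgU hdu hdw hvle
    (fun u hu => by
      obtain ⟨w, hw⟩ := hex u
      exact ⟨w, hw, hB' u w hu hw⟩)
    (fun w hw => hB' um w (by simp) hw)
  exact ⟨r, hr, um, w, lam, v, q, fun w' => hcv.trans_le (hvle w')⟩

attribute [local irreducible] G GU GW NN b0 in
theorem maxT (h1 : S_FJE) (h2 : S_DER) (h3 : S_COER) (h4 : S_UCO) : S_MAX := by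
  intro n P a hdeg hnn c e hc he hG
  obtain ⟨hcont, hGU, hdu, hdw⟩ := h2 n P a
  obtain ⟨u₁, hu₁⟩ := hG
  obtain ⟨U, hU⟩ := h4 n P a hdeg c e hc
  have hg : Continuous (fun p : Vec n × Vec n => G P a c e p.1 p.2) :=
    hcont.comp (by fun_prop : Continuous fun p : Vec n × Vec n => (c, e, p.1, p.2))
  have hco : ∀ K : ℝ, c ≤ K → ∃ B : ℝ, ∀ u w : Vec n, ‖u‖ ≤ K → G P a c e u w ≤ K → ‖w‖ ≤ B := by
    intro K hK
    obtain ⟨B, hB⟩ := h3 n P a hnn e K he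
    exact ⟨B, fun u w hu hw => hB c e u w hc.le hK le_rfl hu hw⟩
  have hU' : ∀ u, U ≤ ‖u‖ → G P a c e u 0 < c := fun u hu =>
    (hU c e u le_rfl he.le le_rfl hu).trans hc
  obtain ⟨r, hr, u, w, lam, v, ⟨q1, q2, q3, q4, q5, q6⟩, q7⟩ := absT h1 (G P a c e)
    (GU P a c e) (GW P a c e) hg (hGU c e) (hdu c e) (hdw c e) c U hco hU' u₁ hu₁
  exact ⟨r, hr, u, w, lam, v, ⟨q1, q2, q3, q4, q5, q6⟩, q7⟩

end Pool.Agent.W699.IP
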